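import Pool.Agent.N204.HR.Stm3
import Pool.Agent.Y133.Half.Par

/-!
# HR/F4: the trace of a product with a commuting nilpotent operator (project of helper204)
-/

set_option linter.unusedSectionVars false

open CategoryTheory AlgebraicGeometry TensorProduct

universe u

namespace Pool.Agent.N498.HR

open Module
open Pool.Agent.H914 Pool.Agent.H914.VarClass Pool.Agent.H914.VarClass.Obj
  Pool.Agent.H914.WeilCohomology
open Pool.Agent.Y133.Half (PH Ev xp xp_induction xp_def corr_xp trace_corr_corr)

section

variable {k : Type u} [Field k] {𝒱 : VarClass k} {ops : CycleOps 𝒱}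
  {W : WeilCohomology.{u, 0} ops} {X : 𝒱.Obj}

/-- an operator which preserves the degrees preserves the parity -/
lemma ev_of_gr {v : Module.End W.K (W.H X)} (hv : ∀ i, ∀ x ∈ W.gr X i, v x ∈ W.gr X i) :
    Ev W v := by
  intro b x hx
  refine PH.ind (p := fun x => v x ∈ PH W X b) ?_ ?_ ?_ hx
  · intro i hi x hx
    exact PH.of' hi (hv i x hx)
  · rw [map_zero]; exact Submodule.zero_mem _
  · intro x y hx hy
    rw [map_add]; exact Submodule.add_mem _ hx hy

/-- the correspondence of `(1 ⊗ v) c` is `v ∘ c` -/
lemma corr_extOp {v : Module.End W.K (W.H X)} (hv : Ev W v) (c : W.H (X.prod X)) :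
    W.corr (extOp W 1 v c) = v ∘ₗ W.corr c := by
  refine xp_induction (p := fun c => W.corr (extOp W 1 v c) = v ∘ₗ W.corr c) ?_ ?_ c
  · intro a b ha hb
    rw [map_add, corr_add, corr_add, LinearMap.comp_add, ha, hb]
  · intro i j a ha b hb
    have h1 : extOp W 1 v (xp W a b) = xp W a (v b) := by
      rw [xp_def, extOp_tmul]
      rfl
    rw [h1]
    apply gr_ext (W.isInternal X)
    intro q z hz
    have hz' := PH.of (W := W) hz
    rw [LinearMap.comp_apply, corr_xp a (hv j b hb) hz', corr_xp a hb hz', map_smul]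

lemma corr_diag_one : W.corr (W.push (diag X) (1 : W.H X)) = LinearMap.id := by
  apply LinearMap.ext
  intro a
  rw [W.corr_diag, one_mul]
  rfl

lemma corr_gr {v : Module.End W.K (W.H X)} (hv : Ev W v) :
    W.corr (extOp W 1 v (W.push (diag X) 1)) = v := by
  rw [corr_extOp hv, corr_diag_one, LinearMap.comp_id]

lemma comm_par {v : Module.End W.K (W.H X)} (hv : Ev W v) :
    Commute (par (W.isInternal X)) v := by
  have h := Ev.par_comm hv
  rw [← Module.End.mul_eq_comp, ← Module.End.mul_eq_comp] at h
  exact h

lemma comm_corr {v w : Module.End W.K (W.H X)} (h : ∀ a, v (w a) = w (v a)) :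
    Commute w v := by
  apply LinearMap.ext
  intro a
  exact (h a).symm

end

/-- **Task F4** -/
theorem f4 : Pool.Agent.N204.HR.S_F4.{u} := by
  intro k _ 𝒱 ops W X v hv
  have hev := ev_of_gr hv
  refine ⟨fun hnil c _ hcomm => ?_, fun h => ?_⟩
  · have h1 := trace_corr_corr (W := W) (N := X) (M := X) (W.map (swap X X) c)
      (extOp W 1 v (W.push (diag X) 1))
    rw [corr_gr hev, ← map_mul, tr_swap] at h1
    rw [← h1]
    set A : Module.End W.K (W.H X) := par (W.isInternal X) * W.corr (W.map (swap X X) c) with hA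
    change LinearMap.trace W.K (W.H X) (A * v) = 0
    have h3 : IsNilpotent (A * v) :=
      Commute.isNilpotent_mul_left ((comm_par hev).mul_left (comm_corr hcomm)) hnil
    exact (LinearMap.isNilpotent_trace_of_isNilpotent h3).eq_zero
  · rw [← corr_gr hev, h, corr_zero]

end Pool.Agent.N498.HR
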